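import Pool.Agent.Run7.h104.Q2.Defs

/-!
# Piece MAIN of the project Q2 of MP_5bfbcb_an (interface: `Pool.Agent.Run7.h104.Q2.Defs`)
-/

set_option autoImplicit false

namespace Pool.Agent.Run7.h617.Q2

open MeasureTheory AddCircle Complex Set Filter Topology Pool.Agent.W767.HL
open Pool.Agent.Run7.h104.Q2

noncomputable section

/-- Multiplication by a character. -/
lemma exists_shift (g : Lp ℂ 2 mu) (M : ℤ) : ∃ g' : Lp ℂ 2 mu,
    (∀ᵐ θ ∂mu, ‖g' θ‖ = ‖g θ‖) ∧ ∀ n : ℤ, fourierCoeff g' n = fourierCoeff g (n - M) := by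
  have h1 : MemLp (fun θ => (fourier M θ : ℂ) * g θ) 2 mu := by
    refine MemLp.of_le (Lp.memLp g) ?_ (ae_of_all _ fun θ => ?_)
    · exact (fourier M).continuous.aestronglyMeasurable.mul (Lp.aestronglyMeasurable g)
    · rw [norm_mul, fourier_eq, norm_zpow, norm_ze, one_zpow, one_mul]
  refine ⟨h1.toLp _, ?_, ?_⟩
  · filter_upwards [h1.coeFn_toLp] with θ hθ
    rw [hθ, norm_mul, fourier_eq, norm_zpow, norm_ze, one_zpow, one_mul]
  · intro n
    unfold fourierCoeff
    refine integral_congr_ae ?_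
    filter_upwards [h1.coeFn_toLp] with θ hθ
    rw [hθ, smul_eq_mul, smul_eq_mul, ← mul_assoc]
    congr 1
    rw [fourier_eq, fourier_eq, fourier_eq, ← zpow_add₀ (ze_ne θ)]
    congr 1
    ring

/-- The distribution bound in the case of infinitely many negative frequencies. -/
theorem bound_inf (hLIM : S_LIM) (n : ℕ → ℤ) (hneg : ∀ k, n k < 0) {q : ℝ} (hq : 1 < q)
    (hlac : ∀ᶠ k in atTop, q ≤ (n (k + 1) : ℝ) / (n k : ℝ)) (g : Lp ℂ 2 mu)
    (hc : ∀ j : ℤ, j < 0 → (∀ k, n k ≠ j) → fourierCoeff g j = 0)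
    (hinf : ∀ M : ℤ, ∃ j < M, fourierCoeff g j ≠ 0) :
    ∃ p C : ℝ, 0 < p ∧ ∀ σ : ℝ, C ≤ σ → mu.real {θ | ‖g θ‖ ≤ Real.exp (-σ)} ≤ C * σ ^ (-p) := by
  obtain ⟨K1, hK1⟩ := eventually_atTop.mp hlac
  -- absolute values of the frequencies
  set p : ℕ → ℕ := fun k => (n k).natAbs with hp
  have hpn : ∀ k, n k = -(p k : ℤ) := fun k => by
    have := hneg k
    simp only [hp]
    omega
  have hp0 : ∀ k, 0 < p k := fun k => by
    have := hneg k
    simp only [hp]
    omega
  have hpq : ∀ k, K1 ≤ k → q * p k ≤ p (k + 1) := by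
    intro k hk
    have h1 := hK1 k hk
    rw [hpn, hpn] at h1
    push_cast at h1
    rw [neg_div_neg_eq, le_div_iff₀ (by exact_mod_cast hp0 k)] at h1
    exact h1
  have hplt : ∀ k, K1 ≤ k → p k < p (k + 1) := by
    intro k hk
    have h1 := hpq k hk
    have h2 : (0 : ℝ) < p k := by exact_mod_cast hp0 k
    have h3 : (p k : ℝ) < p (k + 1) := by nlinarith
    exact_mod_cast h3
  have hps : StrictMono fun i => p (K1 + i) :=
    strictMono_nat_of_lt_succ fun i => hplt (K1 + i) (by omega)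
  -- a starting index which dominates all earlier frequencies
  obtain ⟨b, hb⟩ : ∃ b, ∀ i, i < K1 → p i < b := by
    refine ⟨(Finset.range K1).sup p + 1, fun i hi => ?_⟩
    exact Nat.lt_succ_of_le (Finset.le_sup (f := p) (Finset.mem_range.mpr hi))
  set k1 := K1 + b with hk1
  have hb1 : b ≤ p k1 := hps.le_apply
  set m : ℕ → ℕ := fun j => p (k1 + j) with hm
  have hms : StrictMono m := strictMono_nat_of_lt_succ fun i => hplt (k1 + i) (by omega)
  have hm0 : ∀ j, 0 < m j := fun j => hp0 _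
  have hmq : ∀ j, q * m j ≤ m (j + 1) := fun j => hpq (k1 + j) (by omega)
  have hbefore : ∀ i, i < k1 → p i < m 0 := by
    intro i hi
    by_cases h : i < K1
    · exact (hb i h).trans_le hb1
    · have := hps (show i - K1 < b by omega)
      simp only at this
      rwa [show K1 + (i - K1) = i by omega] at this
  have hmL : ∀ l j, q ^ l * m j ≤ m (j + l) := by
    intro l
    induction l with
    | zero => intro j; simp
    | succ l ih =>
      intro j
      calc q ^ (l + 1) * m j = q * (q ^ l * m j) := by ring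
        _ ≤ q * m (j + l) := mul_le_mul_of_nonneg_left (ih j) (by linarith)
        _ ≤ m (j + l + 1) := hmq _
  -- the parameter L
  have hq0 : 0 < q := by linarith
  have hη : 0 < 1 - 1 / q := by
    rw [sub_pos, div_lt_one hq0]
    exact hq
  have hη1 : 1 - 1 / q ≤ 1 := by
    have : 0 < 1 / q := by positivity
    linarith
  obtain ⟨L, hL⟩ : ∃ L : ℕ, 1 / (1 - 1 / q) < q ^ L := pow_unbounded_of_one_lt _ hq
  have hL' : 1 / (1 - 1 / q) ≤ q ^ (L + 1) :=
    hL.le.trans (pow_le_pow_right₀ hq.le (Nat.le_succ L))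
  have hM : ∀ j, 1 ≤ j → (1 - 1 / q) * m j + m (j - 1) ≤ m j := by
    intro j hj
    have h1 := hmq (j - 1)
    rw [Nat.sub_add_cancel hj] at h1
    have h2 : (m (j - 1) : ℝ) ≤ 1 / q * m j := by
      rw [div_mul_eq_mul_div, one_mul, le_div_iff₀ hq0]
      linarith
    linarith
  have hgap : ∀ j, L + 1 ≤ j → m (j - (L + 1)) + m (j - 1) ≤ m j := by
    intro j hj
    have h1 := hmL (L + 1) (j - (L + 1))
    rw [Nat.sub_add_cancel hj] at h1
    have h2 := hM j (by omega)
    have h3 : (m (j - (L + 1)) : ℝ) ≤ (1 - 1 / q) * m j := by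
      rw [div_le_iff₀ hη] at hL'
      have h4 : (0 : ℝ) < m (j - (L + 1)) := by exact_mod_cast hm0 _
      nlinarith
    have h5 : (m (j - (L + 1)) : ℝ) + m (j - 1) ≤ m j := by linarith
    exact_mod_cast h5
  have hG2 : ∀ j, 1 ≤ j → ∀ i : ℤ, -(m j : ℤ) < i → i < -(m (j - 1) : ℤ) →
      fourierCoeff g i = 0 := by
    intro j hj i hi1 hi2
    refine hc i (by omega) fun k hk => ?_
    rw [hpn k] at hk
    by_cases h : k < k1
    · have h1 := hbefore k h
      have h2 : m 0 ≤ m (j - 1) := hms.monotone (Nat.zero_le _)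
      omega
    · have h1 : p k = m (k - k1) := by
        simp only [hm]
        rw [show k1 + (k - k1) = k by omega]
      rcases Nat.lt_or_ge (k - k1) j with h2 | h2
      · have := hms.monotone (show k - k1 ≤ j - 1 by omega)
        omega
      · have := hms.monotone h2
        omega
  -- shift the frequencies
  have hmle : ∀ j, m 0 ≤ m j := fun j => hms.monotone (Nat.zero_le j)
  obtain ⟨g', hg'n, hg'c⟩ := exists_shift g (m 0 : ℤ)
  obtain ⟨r, C, hr, hC⟩ := hLIM (L + 1) (1 - 1 / q) (fun j => m j - m 0) (Nat.succ_pos L) hη hη1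
    (fun i j hij => by
      have h1 := hms hij
      have h2 := hmle i
      change m i - m 0 < m j - m 0
      omega) (Nat.sub_self _)
    (fun j hj => by
      have h1 := hgap j hj
      have h2 := hmle (j - (L + 1))
      have h3 := hmle (j - 1)
      have h4 := hmle j
      change (m (j - (L + 1)) - m 0) + (m (j - 1) - m 0) ≤ m j - m 0
      omega)
    (fun j hj => by
      have h1 := hM j hj
      have h3 := hmle (j - 1)
      have h4 := hmle j
      change (1 - 1 / q) * ((m j - m 0 : ℕ) : ℝ) + ((m (j - 1) - m 0 : ℕ) : ℝ) ≤ ((m j - m 0 : ℕ) : ℝ)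
      rw [Nat.cast_sub h4, Nat.cast_sub h3]
      have h5 : 0 ≤ (1 - 1 / q) * (m 0 : ℝ) := by positivity
      nlinarith)
    g'
    (fun j hj i hi1 hi2 => by
      rw [hg'c]
      have h3 := hmle (j - 1)
      have h4 := hmle j
      have hi1' : -((m j - m 0 : ℕ) : ℤ) < i := hi1
      have hi2' : i < -((m (j - 1) - m 0 : ℕ) : ℤ) := hi2
      rw [Nat.cast_sub h4] at hi1'
      rw [Nat.cast_sub h3] at hi2'
      exact hG2 j hj _ (by omega) (by omega))
    (fun M => by
      obtain ⟨j, hj, hj'⟩ := hinf (M - m 0)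
      refine ⟨j + m 0, by omega, ?_⟩
      rw [hg'c]
      have h1 : j + (m 0 : ℤ) - (m 0 : ℤ) = j := by ring
      rw [h1]
      exact hj')
  refine ⟨r, C, hr, fun σ hσ => ?_⟩
  have h1 : mu.real {θ | ‖g θ‖ ≤ Real.exp (-σ)} = mu.real {θ | ‖g' θ‖ ≤ Real.exp (-σ)} := by
    refine measureReal_congr ?_
    filter_upwards [hg'n] with θ hθ
    apply propext
    change ‖g θ‖ ≤ Real.exp (-σ) ↔ ‖g' θ‖ ≤ Real.exp (-σ)
    rw [hθ]
  rw [h1]
  exact hC σ hσ

/-- **MAIN** -/
theorem prove_MAIN (hLIM : S_LIM) (hFIN : S_FIN) (hLOGP : S_LOGP) : S_MAIN := by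
  intro n hneg hlac a g₁ g₂ h₁ h₂ hg
  obtain ⟨y, hy1, hy2⟩ := exists_between hlac
  have hy3 : y ≠ ⊤ := (hy2.trans_le le_top).ne
  have hy4 : y ≠ ⊥ := (bot_lt_iff_ne_bot.mp ((EReal.bot_lt_coe 1).trans hy1))
  lift y to ℝ using ⟨hy3, hy4⟩
  have hy5 : (1 : ℝ) < y := by exact_mod_cast hy1
  have hev := eventually_lt_of_lt_liminf hy2
  have hlac' : ∀ᶠ k in atTop, y ≤ (n (k + 1) : ℝ) / (n k : ℝ) := by
    filter_upwards [hev] with k hk
    exact (EReal.coe_lt_coe_iff.mp hk).le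
  have hc : ∀ j : ℤ, j < 0 → (∀ k, n k ≠ j) → fourierCoeff (g₁ + g₂ : Lp ℂ 2 mu) j = 0 := by
    intro j hj hjn
    have e1 : fourierCoeff g₁ j = 0 := coeff_eq_zero h₁ hjn
    have e2 : fourierCoeff g₂ j = 0 := coeff_eq_zero (n := fun i : ℕ => (i : ℤ))
      (b := fun i => a i) h₂ fun k => by omega
    rw [← inner_fourier] at e1 e2 ⊢
    rw [map_add, e1, e2, add_zero]
  by_cases hinf : ∀ M : ℤ, ∃ j < M, fourierCoeff (g₁ + g₂ : Lp ℂ 2 mu) j ≠ 0
  · obtain ⟨p, C, hp, hC⟩ := bound_inf hLIM n hneg hy5 hlac' (g₁ + g₂) hc hinf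
    exact hLOGP (g₁ + g₂) p C hp hC
  · push Not at hinf
    obtain ⟨C, hC⟩ := hFIN (g₁ + g₂) hg hinf
    exact hLOGP (g₁ + g₂) 1 C one_pos hC

end

end Pool.Agent.Run7.h617.Q2
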