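import Pool.Agent.Run7.h104.Q2.Defs

/-!
# Piece PART1 of the project Q2 of MP_5bfbcb_an (interface: `Pool.Agent.Run7.h104.Q2.Defs`)
-/

set_option autoImplicit false

namespace Pool.Agent.Run7.h617.Q2

open MeasureTheory AddCircle Complex Set Filter Topology Pool.Agent.W767.HL
open Pool.Agent.Run7.h104.Q2

noncomputable section

lemma rho2_ge {m : ℕ → ℕ} {J : ℕ} {G : ℤ →₀ ℂ} {j : ℕ} (hj : j ≤ J) :
    ‖G (-(m j : ℤ))‖ ^ 2 ≤ rho2 m J G j := by
  unfold rho2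
  exact Finset.single_le_sum (f := fun i => ‖G (-(m i : ℤ))‖ ^ 2) (fun i _ => sq_nonneg _)
    (Finset.mem_Icc.2 ⟨le_rfl, hj⟩)

lemma KK_ge {m : ℕ → ℕ} {J : ℕ} {G : ℤ →₀ ℂ} {D0 : ℝ} {a j : ℕ} (hj : j ≤ J)
    (h : Real.exp (-(2 * (2 ^ a * D0))) ≤ ‖G (-(m j : ℤ))‖ ^ 2) : j ≤ KK m J G D0 a :=
  Nat.le_findGreatest hj (h.trans (rho2_ge hj))

lemma KK_mono {m : ℕ → ℕ} {J : ℕ} {G : ℤ →₀ ℂ} {D0 : ℝ} (hD : 0 ≤ D0) {a b : ℕ} (hab : a ≤ b) :
    KK m J G D0 a ≤ KK m J G D0 b := by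
  unfold KK
  refine Nat.findGreatest_mono (fun j hj => ?_) le_rfl
  refine le_trans (Real.exp_le_exp.2 ?_) hj
  have h1 : (2 : ℝ) ^ a ≤ 2 ^ b := pow_le_pow_right₀ (by norm_num) hab
  have h2 : (2 : ℝ) ^ a * D0 ≤ 2 ^ b * D0 := mul_le_mul_of_nonneg_right h1 hD
  linarith

lemma ellf_pos {κ : ℝ} (hκ : 0 < κ) {m : ℕ → ℕ} (hm : StrictMono m) {J : ℕ} {G : ℤ →₀ ℂ} {D0 : ℝ}
    (hD : 0 < D0) (hK : 1 ≤ KK m J G D0 0) (i : ℕ) : 0 < ellf κ m J G D0 i := by
  have hmK : ∀ a, 0 < (m (KK m J G D0 a) : ℝ) := by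
    intro a
    have h1 : 1 ≤ KK m J G D0 a := hK.trans (KK_mono hD.le (Nat.zero_le a))
    have h2 : KK m J G D0 a ≤ m (KK m J G D0 a) := hm.le_apply
    exact_mod_cast (lt_of_lt_of_le Nat.one_pos (h1.trans h2))
  induction i with
  | zero =>
    have h1 := hmK 0
    change 0 < min 1 (D0 / (κ * m (KK m J G D0 0)))
    positivity
  | succ i ih =>
    have h1 := hmK (i + 1)
    change 0 < min (ellf κ m J G D0 i) (2 ^ (i + 1) * D0 / (κ * m (KK m J G D0 (i + 1))))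
    positivity

lemma ellf_anti (κ : ℝ) (m : ℕ → ℕ) (J : ℕ) (G : ℤ →₀ ℂ) (D0 : ℝ) : Antitone (ellf κ m J G D0) :=
  antitone_nat_of_succ_le fun _ => min_le_left _ _

/-- The truncation is trivial for large indices. -/
lemma ff_eventually {L : ℕ} {η : ℝ} {m : ℕ → ℕ} {J : ℕ} {G : ℤ →₀ ℂ} (h : HLG L η m J G) {D0 : ℝ}
    (hD : 0 < D0) : ∀ᶠ N in atTop, ff m J G D0 N = G := by
  have h1 : ∀ j ∈ Finset.Icc 1 J, ∀ᶠ N : ℕ in atTop,
      G (-(m j : ℤ)) ≠ 0 → Real.exp (-(2 * (2 ^ N * D0))) ≤ ‖G (-(m j : ℤ))‖ ^ 2 := by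
    intro j _
    by_cases hj : G (-(m j : ℤ)) = 0
    · exact Eventually.of_forall fun N h => absurd hj h
    · have h2 : 0 < ‖G (-(m j : ℤ))‖ ^ 2 := by positivity
      have h3 : Tendsto (fun N : ℕ => Real.exp (-(2 * (2 ^ N * D0)))) atTop (𝓝 0) := by
        refine Real.tendsto_exp_neg_atTop_nhds_zero.comp ?_
        refine Tendsto.const_mul_atTop (by norm_num) ?_
        exact Tendsto.atTop_mul_const hD (tendsto_pow_atTop_atTop_of_one_lt (by norm_num))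
      filter_upwards [h3.eventually (gt_mem_nhds h2)] with N hN _
      exact le_of_lt hN
  have h2 := (Filter.eventually_all_finset (Finset.Icc 1 J)).2 h1
  filter_upwards [h2] with N hN
  unfold ff cut
  rw [Finsupp.filter_eq_self_iff]
  intro n hn
  rcases le_or_gt 0 n with h3 | h3
  · have : (0 : ℤ) ≤ (m (KK m J G D0 N) : ℤ) := Int.natCast_nonneg _
    omega
  · -- `n` is one of the frequencies
    obtain ⟨k, hk⟩ : ∃ k : ℕ, n = -(k : ℤ) := ⟨n.natAbs, by omega⟩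
    have hkJ : k ≤ m J := by
      by_contra hlt
      apply hn
      exact h.hJ n (by rw [hk]; omega)
    have hk0 : 0 < k := by omega
    -- the least `j` with `k ≤ m j`
    have hex : ∃ j, k ≤ m j := ⟨J, hkJ⟩
    classical
    let j := Nat.find hex
    have hj1 : k ≤ m j := Nat.find_spec hex
    have hjJ : j ≤ J := Nat.find_min' hex hkJ
    have hj0 : 1 ≤ j := by
      by_contra hlt
      have h4 : j = 0 := by omega
      rw [h4, h.hm0] at hj1
      omega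
    have hj2 : m (j - 1) < k := by
      have := Nat.find_min hex (show j - 1 < Nat.find hex by change j - 1 < j; omega)
      omega
    have hkm : k = m j := by
      by_contra hne
      apply hn
      refine h.hG2 j hj0 n ?_ ?_
      · rw [hk]; omega
      · rw [hk]; omega
    have h4 : G (-(m j : ℤ)) ≠ 0 := by
      rw [← hkm, ← hk]
      exact hn
    have h5 : j ≤ KK m J G D0 N := KK_ge hjJ (hN j (Finset.mem_Icc.2 ⟨hj0, hjJ⟩) h4)
    have h6 : m j ≤ m (KK m J G D0 N) := h.hm.monotone h5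
    rw [hk, hkm]
    omega

/-- **PART1** -/
theorem prove_PART1 (hNICE : S_NICE) (hTAIL : S_TAIL) (hRI1 : S_RI1) : S_PART1 := by
  intro L η hL hη hη1
  obtain ⟨κ, A0, c0, hκ, hκ1, hA0, hc0, hc01, Dm1, Cm1, hri⟩ := hRI1 L η hL hη hη1
  refine ⟨κ / 4, A0, c0, by positivity, by linarith, hA0, hc0, hc01, ?_⟩
  intro κ7 hκ7
  obtain ⟨Dm2, hnice⟩ := hNICE L η κ hκ hκ1 hη
  obtain ⟨Dm3, Cm3, htail⟩ := hTAIL L η κ κ7 hκ hκ1 hη hκ7
  refine ⟨max 1 (max Dm1 (max Dm2 Dm3)), max Cm1 Cm3, ?_⟩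
  intro D0 hD0 m J G hG j2 hj21 hj2J hCm hGj Nmin
  have hD1 : 1 ≤ D0 := (le_max_left _ _).trans hD0
  have hDm1 : Dm1 ≤ D0 := (le_max_left _ _).trans ((le_max_right _ _).trans hD0)
  have hDm2 : Dm2 ≤ D0 :=
    (le_max_left _ _).trans ((le_max_right _ _).trans ((le_max_right _ _).trans hD0))
  have hDm3 : Dm3 ≤ D0 :=
    (le_max_right _ _).trans ((le_max_right _ _).trans ((le_max_right _ _).trans hD0))
  have hDpos : 0 < D0 := by linarith
  have hK0 : j2 ≤ KK m J G D0 0 := by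
    refine KK_ge hj2J ?_
    have h1 : Real.exp (-(2 * (2 ^ 0 * D0))) = Real.exp (-D0) ^ 2 := by
      rw [← Real.exp_nat_mul]
      congr 1
      push_cast
      ring
    rw [h1]
    exact pow_le_pow_left₀ (Real.exp_pos _).le hGj 2
  have hK1 : 1 ≤ KK m J G D0 0 := hj21.trans hK0
  have hmK : m j2 ≤ m (KK m J G D0 0) := hG.hm.monotone hK0
  have hC1 : Cm1 ≤ m (KK m J G D0 0) := ((le_max_left _ _).trans hCm).trans hmK
  have hC3 : Cm3 ≤ m (KK m J G D0 0) := ((le_max_right _ _).trans hCm).trans hmK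
  obtain ⟨hn1, hn2⟩ := hnice D0 hDm2 m J G hG hK1
  obtain ⟨N, hN1, hN2⟩ := ((ff_eventually hG hDpos).and (eventually_ge_atTop Nmin)).exists
  refine ⟨N, hN2, ff m J G D0, ellf κ m J G D0, ?_⟩
  exact
    { ell_pos := ellf_pos hκ hG.hm hDpos hK1
      ell_anti := ellf_anti κ m J G D0
      ell_le := fun i => ((ellf_anti κ m J G D0) (Nat.zero_le i)).trans (min_le_left _ _)
      fN := hN1
      norm := hG.hn
      nice := fun i _ z hz0 hz1 hz => hn1 i z hz0 hz1 hz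
      mism := fun i _ z hz0 hz1 hz => hn2 i z hz0 hz1 hz
      tail := fun i _ z hz0 hz1 hz => htail D0 hDm3 m J G hG hK1 hC3 i z hz0 hz1 hz
      ri := fun i k hik _ y hy hyk w hw0 hw1 hw hB =>
        hri D0 hDm1 m J G hG hK1 hC1 i k hik y hy hyk w hw0 hw1 hw hB }

end

end Pool.Agent.Run7.h617.Q2
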